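import Pool.Agent.X197.Sick

set_option autoImplicit false
set_option linter.unusedSectionVars false

open Set Topology Filter MeasureTheory

namespace Pool.Agent.Results.MP_d104cf_an.GdeltaPointAnalytic

open Pool.Agent.X197.Sick

universe u w

/-- The set `P(K)` of regular Borel probability measures. -/
def PMeas (K : Type u) [TopologicalSpace K] [MeasurableSpace K] : Type u :=
  {μ : Measure K // IsProbabilityMeasure μ ∧ μ.Regular}

/-- The weak* topology of `P(K)`, induced by the integrals of continuous functions. -/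
noncomputable instance (K : Type u) [TopologicalSpace K] [MeasurableSpace K] :
    TopologicalSpace (PMeas K) :=
  TopologicalSpace.induced (fun μ (f : C(K, ℝ)) => ∫ x, f x ∂μ.1) inferInstance

instance (K : Type u) [TopologicalSpace K] [MeasurableSpace K] (μ : PMeas K) :
    IsProbabilityMeasure μ.1 := μ.2.1

variable {K : Type u} [TopologicalSpace K] [CompactSpace K] [T2Space K] [MeasurableSpace K]
  [BorelSpace K]

/-- A point of `P(K)` that is a `G_δ` is determined by countably many functions. -/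
theorem exists_determining (μ : PMeas K) (hμ : IsGδ ({μ} : Set (PMeas K))) :
    ∃ F : Set C(K, ℝ), F.Countable ∧ ∀ ν : PMeas K,
      (∀ f ∈ F, ∫ x, f x ∂ν.1 = ∫ x, f x ∂μ.1) → ν = μ := by
  classical
  obtain ⟨T, hTo, hTc, hT⟩ := hμ
  have h : ∀ U ∈ T, ∃ I : Finset C(K, ℝ), ∀ ν : PMeas K,
      (∀ f ∈ I, ∫ x, f x ∂ν.1 = ∫ x, f x ∂μ.1) → ν ∈ U := by
    intro U hU
    obtain ⟨O, hO, hOU⟩ := isOpen_induced_iff.mp (hTo U hU)
    have hμU : μ ∈ U := by
      have h1 : μ ∈ ⋂₀ T := by rw [← hT]; rfl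
      exact h1 U hU
    have hμO : (fun (f : C(K, ℝ)) => ∫ x, f x ∂μ.1) ∈ O := by
      rw [← hOU] at hμU
      exact hμU
    obtain ⟨I, u, hu, huO⟩ := isOpen_pi_iff.mp hO _ hμO
    refine ⟨I, fun ν hν => ?_⟩
    rw [← hOU]
    apply huO
    intro f hf
    show ∫ x, f x ∂ν.1 ∈ u f
    rw [hν f hf]
    exact (hu f hf).2
  choose! I hI using h
  refine ⟨⋃ U ∈ T, (I U : Set C(K, ℝ)), hTc.biUnion fun U _ => (I U).countable_toSet, ?_⟩
  intro ν hν
  have h1 : ν ∈ ⋂₀ T := by
    intro U hU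
    exact hI U hU ν fun f hf => hν f (mem_iUnion₂.mpr ⟨U, hU, hf⟩)
  rw [← hT] at h1
  exact h1

theorem integrable_cont (μ : Measure K) [IsFiniteMeasure μ] (f : C(K, ℝ)) : Integrable f μ :=
  f.continuous.integrable_of_hasCompactSupport (HasCompactSupport.of_compactSpace _)

/-- Integration of continuous functions as a linear map. -/
noncomputable def M (μ : Measure K) [IsFiniteMeasure μ] : C(K, ℝ) →ₗ[ℝ] ℝ where
  toFun f := ∫ x, f x ∂μ
  map_add' f g := integral_add (integrable_cont μ f) (integrable_cont μ g)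
  map_smul' c f := integral_smul c f

theorem M_apply (μ : Measure K) [IsFiniteMeasure μ] (f : C(K, ℝ)) : M μ f = ∫ x, f x ∂μ := rfl

theorem M_mono (μ : Measure K) [IsFiniteMeasure μ] {f g : C(K, ℝ)} (h : f ≤ g) :
    M μ f ≤ M μ g :=
  integral_mono (integrable_cont μ f) (integrable_cont μ g) h

theorem M_one (μ : Measure K) [IsProbabilityMeasure μ] : M μ 1 = 1 := by
  rw [M_apply]
  simp

theorem le_norm_one (f : C(K, ℝ)) : f ≤ ‖f‖ • (1 : C(K, ℝ)) := by
  intro x
  show f x ≤ ‖f‖ * 1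
  rw [mul_one]
  exact (le_abs_self _).trans (f.norm_coe_le_norm x)

/-- A positive normalised functional on `C(K)` is given by a regular probability measure. -/
theorem exists_measure (ψ : C(K, ℝ) →ₗ[ℝ] ℝ) (hψ : ∀ f, 0 ≤ f → 0 ≤ ψ f) (hψ1 : ψ 1 = 1) :
    ∃ ν : PMeas K, ∀ f : C(K, ℝ), ∫ x, f x ∂ν.1 = ψ f := by
  let Λ : CompactlySupportedContinuousMap K ℝ →ₚ[ℝ] ℝ :=
    { toFun := fun g => ψ g.toContinuousMap
      map_add' := fun g g' => by
        rw [← map_add]
        rfl
      map_smul' := fun c g => by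
        rw [← map_smul]
        rfl
      monotone' := fun g g' hgg' => by
        have h1 : 0 ≤ ψ (g'.toContinuousMap - g.toContinuousMap) := by
          apply hψ
          intro x
          show 0 ≤ g' x - g x
          exact sub_nonneg.mpr (hgg' x)
        rw [map_sub] at h1
        exact sub_nonneg.mp h1 }
  have hint : ∀ f : C(K, ℝ), ∫ x, f x ∂(RealRMK.rieszMeasure Λ) = ψ f := fun f =>
    RealRMK.integral_rieszMeasure Λ (CompactlySupportedContinuousMap.continuousMapEquiv f)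
  have hprob : IsProbabilityMeasure (RealRMK.rieszMeasure Λ) := by
    have h1 := hint 1
    rw [hψ1] at h1
    simp only [ContinuousMap.one_apply, integral_const, smul_eq_mul, mul_one] at h1
    constructor
    rw [Measure.real, ENNReal.toReal_eq_one_iff] at h1
    exact h1
  exact ⟨⟨RealRMK.rieszMeasure Λ, hprob, inferInstance⟩, hint⟩

/-- Approximation from below by the span of a determining set. -/
theorem exists_lower (μ : PMeas K) {F : Set C(K, ℝ)} (hF : ∀ ν : PMeas K,
      (∀ f ∈ F, ∫ x, f x ∂ν.1 = ∫ x, f x ∂μ.1) → ν = μ)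
    (V : Submodule ℝ C(K, ℝ)) (hFV : F ⊆ V) (h1V : (1 : C(K, ℝ)) ∈ V) (g : C(K, ℝ)) {ε : ℝ}
    (hε : 0 < ε) : ∃ v ∈ V, v ≤ g ∧ ∫ x, g x ∂μ.1 - ε < ∫ x, v x ∂μ.1 := by
  have := μ.2.1
  by_contra hcon
  push Not at hcon
  set m := M μ.1 with hm
  have hcon' : ∀ v ∈ V, v ≤ g → m v ≤ m g - ε := hcon
  let S : C(K, ℝ) → Set ℝ := fun h => {r | ∃ v ∈ V, h ≤ v ∧ m v = r}
  have hSne : ∀ h, (S h).Nonempty := fun h =>
    ⟨m (‖h‖ • (1 : C(K, ℝ))), _, V.smul_mem _ h1V, le_norm_one h, rfl⟩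
  have hSbd : ∀ h, BddBelow (S h) := by
    intro h
    refine ⟨m h, ?_⟩
    rintro _ ⟨v, -, hv, rfl⟩
    exact M_mono μ.1 hv
  let N : C(K, ℝ) → ℝ := fun h => sInf (S h)
  have hNle : ∀ h, ∀ v ∈ V, h ≤ v → N h ≤ m v := fun h v hv hhv =>
    csInf_le (hSbd h) ⟨v, hv, hhv, rfl⟩
  have hNge : ∀ h, ∀ c : ℝ, (∀ v ∈ V, h ≤ v → c ≤ m v) → c ≤ N h := by
    intro h c hc
    apply le_csInf (hSne h)
    rintro _ ⟨v, hv, hhv, rfl⟩
    exact hc v hv hhv
  have hNhom1 : ∀ c : ℝ, 0 < c → ∀ x, c * N x ≤ N (c • x) := by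
    intro c hc x
    apply hNge
    intro v hv hxv
    have h1 : x ≤ c⁻¹ • v := by
      intro z
      have h2 : c * x z ≤ v z := hxv z
      show x z ≤ c⁻¹ * v z
      rw [le_inv_mul_iff₀ hc]
      exact h2
    have h3 := hNle x (c⁻¹ • v) (V.smul_mem _ hv) h1
    rw [map_smul, smul_eq_mul, le_inv_mul_iff₀ hc] at h3
    exact h3
  have hNhom : ∀ c : ℝ, 0 < c → ∀ x, N (c • x) = c * N x := by
    intro c hc x
    apply le_antisymm _ (hNhom1 c hc x)
    have h1 := hNhom1 c⁻¹ (inv_pos.mpr hc) (c • x)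
    rw [smul_smul, inv_mul_cancel₀ hc.ne', one_smul, inv_mul_le_iff₀ hc] at h1
    exact h1
  have hNadd : ∀ x y, N (x + y) ≤ N x + N y := by
    intro x y
    apply le_of_forall_pos_le_add
    intro δ hδ
    obtain ⟨_, ⟨v, hv, hxv, rfl⟩, hv2⟩ := Real.lt_sInf_add_pos (hSne x) (half_pos hδ)
    obtain ⟨_, ⟨v', hv', hyv', rfl⟩, hv2'⟩ := Real.lt_sInf_add_pos (hSne y) (half_pos hδ)
    have h1 := hNle (x + y) (v + v') (V.add_mem hv hv') (add_le_add hxv hyv')
    rw [map_add] at h1
    have h2 : m v < N x + δ / 2 := hv2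
    have h3 : m v' < N y + δ / 2 := hv2'
    linarith
  have hN0 : N 0 = 0 := by
    have h1 := hNhom 2 two_pos 0
    rw [smul_zero] at h1
    linarith
  have hg0 : -g ≠ 0 := by
    intro h
    have h1 : g = 0 := neg_eq_zero.mp h
    have h2 := hcon' 0 V.zero_mem (by rw [h1])
    rw [h1, map_zero] at h2
    linarith
  let P : C(K, ℝ) →ₗ.[ℝ] ℝ := LinearPMap.mkSpanSingleton (-g) (N (-g)) hg0
  obtain ⟨ψ, hψ1, hψ2⟩ := exists_extension_of_le_sublinear P N hNhom hNadd (by
      rintro ⟨x, hx⟩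
      obtain ⟨c, rfl⟩ := Submodule.mem_span_singleton.mp hx
      have h0 : P ⟨c • -g, hx⟩ = c * N (-g) :=
        LinearPMap.mkSpanSingleton'_apply _ _ _ _ _
      rw [h0]
      show c * N (-g) ≤ N (c • (-g))
      rcases lt_trichotomy c 0 with h | h | h
      · have h1 := hNhom (-c) (neg_pos.mpr h) (-g)
        have h2 := hNadd (c • (-g)) ((-c) • (-g))
        rw [neg_smul, add_neg_cancel, hN0] at h2
        rw [neg_smul] at h1
        linarith
      · rw [h, zero_mul, zero_smul, hN0]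
      · exact (hNhom c h _).ge)
  have hψg : ψ (-g) = N (-g) := by
    have hmem : -g ∈ P.domain := Submodule.mem_span_singleton_self (R := ℝ) _
    have h1 := hψ1 ⟨-g, hmem⟩
    have h2 : P ⟨-g, hmem⟩ = N (-g) :=
      LinearPMap.mkSpanSingleton'_apply_self _ _ _ _
    rw [h2] at h1
    exact h1
  have hψV : ∀ v ∈ V, ψ v = m v := by
    intro v hv
    have h1 := (hψ2 v).trans (hNle v v hv le_rfl)
    have h2 := (hψ2 (-v)).trans (hNle (-v) (-v) (V.neg_mem hv) le_rfl)
    rw [map_neg, map_neg] at h2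
    linarith
  have hψpos : ∀ f, 0 ≤ f → 0 ≤ ψ f := by
    intro f hf
    have h1 := (hψ2 (-f)).trans (hNle (-f) 0 V.zero_mem (neg_nonpos.mpr hf))
    rw [map_neg, map_zero] at h1
    linarith
  obtain ⟨ν, hν⟩ := exists_measure ψ hψpos (by rw [hψV 1 h1V]; exact M_one μ.1)
  have hνμ : ν = μ := by
    apply hF
    intro f hf
    rw [hν, hψV f (hFV hf)]
    rfl
  have h3 : ψ (-g) = m (-g) := by
    rw [← hν (-g), hνμ]
    rfl
  have h4 : -(m g) + ε ≤ N (-g) := by
    apply hNge
    intro v hv hgv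
    have h5 := hcon' (-v) (V.neg_mem hv) (neg_le.mp hgv)
    rw [map_neg] at h5
    linarith
  rw [← hψg, h3, map_neg] at h4
  linarith

/-- Countable version. -/
theorem exists_countable_lower (μ : PMeas K) (hμ : IsGδ ({μ} : Set (PMeas K))) :
    ∃ D : Set C(K, ℝ), D.Countable ∧ ∀ (g : C(K, ℝ)) (ε : ℝ), 0 < ε →
      ∃ d ∈ D, d ≤ g ∧ ∫ x, g x ∂μ.1 - ε < ∫ x, d x ∂μ.1 := by
  have hprob := μ.2.1
  obtain ⟨F, hFc, hF⟩ := exists_determining μ hμ
  set V := Submodule.span ℝ (insert 1 F) with hV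
  have hsep : TopologicalSpace.IsSeparable (V : Set C(K, ℝ)) :=
    (hFc.insert 1).isSeparable.span
  obtain ⟨c, hc, hVc⟩ := hsep
  refine ⟨(fun a : C(K, ℝ) × ℚ => a.1 - (a.2 : ℝ) • (1 : C(K, ℝ))) '' (c ×ˢ univ),
    (hc.prod (countable_univ)).image _, ?_⟩
  intro g ε hε
  obtain ⟨v, hv, hvg, hvm⟩ := exists_lower μ hF V
    ((subset_insert _ _).trans Submodule.subset_span)
    (Submodule.subset_span (mem_insert _ _)) g (half_pos hε)
  obtain ⟨d, hd, hdv⟩ := Metric.mem_closure_iff.mp (hVc hv) (ε / 8) (by positivity)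
  obtain ⟨q, hq1, hq2⟩ := exists_rat_btwn (show ε / 8 < ε / 4 by linarith)
  refine ⟨_, ⟨(d, q), ⟨hd, mem_univ _⟩, rfl⟩, ?_, ?_⟩
  · intro x
    show d x - q * 1 ≤ g x
    have h1 : dist (v x) (d x) ≤ dist v d := ContinuousMap.dist_apply_le_dist x
    rw [Real.dist_eq] at h1
    have h2 := abs_le.mp (h1.trans hdv.le)
    have h3 : v x ≤ g x := hvg x
    linarith [h2.1]
  · have h4 : M μ.1 v - ε / 8 ≤ M μ.1 d := by
      have h5 : v - (ε / 8) • (1 : C(K, ℝ)) ≤ d := by
        intro x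
        show v x - ε / 8 * 1 ≤ d x
        have h1 : dist (v x) (d x) ≤ dist v d := ContinuousMap.dist_apply_le_dist x
        rw [Real.dist_eq] at h1
        have h2 := abs_le.mp (h1.trans hdv.le)
        linarith [h2.2]
      have h6 := M_mono μ.1 h5
      rw [map_sub, map_smul, M_one, smul_eq_mul, mul_one] at h6
      exact h6
    have h7 : M μ.1 (d - (q : ℝ) • (1 : C(K, ℝ))) = M μ.1 d - q := by
      rw [map_sub, map_smul, M_one, smul_eq_mul, mul_one]
    show M μ.1 g - ε < M μ.1 (d - (q : ℝ) • (1 : C(K, ℝ)))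
    rw [h7]
    have h8 : M μ.1 g - ε / 2 < M μ.1 v := hvm
    linarith

/-- The canonical map `C(K) → L₁(μ)` sending a function to its class. -/
noncomputable def canon (μ : Measure K) [IsFiniteMeasure μ] : C(K, ℝ) → Lp ℝ 1 μ :=
  fun f => ContinuousMap.toLp 1 μ ℝ f

theorem dist_canon (μ : Measure K) [IsFiniteMeasure μ] (f g : C(K, ℝ)) :
    dist (canon μ f) (canon μ g) = M μ |f - g| := by
  unfold canon
  rw [dist_eq_norm, ← map_sub, L1.norm_eq_integral_norm, M_apply]
  apply integral_congr_ae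
  filter_upwards [ContinuousMap.coeFn_toLp (p := 1) (𝕜 := ℝ) μ (f - g)] with x hx
  rw [hx]
  rfl

section sick

variable {E : Type w} [NormedAddCommGroup E] [NormedSpace ℝ E] [Lattice E] [IsOrderedAddMonoid E]
  [HasSolidNorm E]

theorem T_le_iff (T : C(K, ℝ) →ₗ[ℝ] E) (hinj : Function.Injective T)
    (hsup : ∀ f g, T (f ⊔ g) = T f ⊔ T g) {f g : C(K, ℝ)} : T f ≤ T g ↔ f ≤ g := by
  constructor
  · intro h
    have h1 : T (f ⊔ g) = T g := by rw [hsup, sup_eq_right.mpr h]
    exact sup_eq_right.mp (hinj h1)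
  · exact T_mono T hsup

open Classical in
/-- Inverse of `T` on its range, zero elsewhere. -/
noncomputable def R (T : C(K, ℝ) →ₗ[ℝ] E) (y : E) : C(K, ℝ) :=
  if h : ∃ f, T f = y then h.choose else 0

theorem R_T (T : C(K, ℝ) →ₗ[ℝ] E) (hinj : Function.Injective T) (f : C(K, ℝ)) :
    R T (T f) = f := by
  unfold R
  rw [dif_pos ⟨f, rfl⟩]
  apply hinj
  exact Exists.choose_spec (p := fun f' => T f' = T f) ⟨f, rfl⟩

theorem R_of_not (T : C(K, ℝ) →ₗ[ℝ] E) {y : E} (hy : y ∉ range T) : R T y = 0 := by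
  unfold R
  rw [dif_neg (show ¬ ∃ f, T f = y from hy)]

theorem continuous_latticeAbs : Continuous (fun y : E => |y|) :=
  continuous_id.sup continuous_neg

variable [PosSMulMono ℝ E] [MeasurableSpace E] [BorelSpace E] [SecondCountableTopology E]

theorem measurableSet_range (T : C(K, ℝ) →ₗ[ℝ] E) (x : E) (hx : 0 ≤ x)
    (hr : range T = {y : E | ∃ c : ℝ, 0 < c ∧ |y| ≤ c • x}) : MeasurableSet (range T) := by
  have h1 : range T = ⋃ n : ℕ, {y : E | |y| ≤ ((n : ℝ) + 1) • x} := by
    rw [hr]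
    ext y
    constructor
    · rintro ⟨c, hc, hcy⟩
      obtain ⟨n, hn⟩ := exists_nat_ge c
      refine mem_iUnion.mpr ⟨n, hcy.trans ?_⟩
      exact smul_le_smul_of_nonneg_right (by linarith) hx
    · intro hy
      obtain ⟨n, hn⟩ := mem_iUnion.mp hy
      exact ⟨(n : ℝ) + 1, by positivity, hn⟩
  rw [h1]
  refine MeasurableSet.iUnion fun n => IsClosed.measurableSet ?_
  exact isClosed_le continuous_latticeAbs continuous_const

theorem measurable_m (T : C(K, ℝ) →ₗ[ℝ] E) (hinj : Function.Injective T)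
    (hsup : ∀ f g, T (f ⊔ g) = T f ⊔ T g) (hrange : MeasurableSet (range T)) (μ : PMeas K)
    {D : Set C(K, ℝ)} (hDc : D.Countable) (hD : ∀ (g : C(K, ℝ)) (ε : ℝ), 0 < ε →
      ∃ d ∈ D, d ≤ g ∧ ∫ x, g x ∂μ.1 - ε < ∫ x, d x ∂μ.1) :
    Measurable (fun y : E => ∫ z, R T y z ∂μ.1) := by
  have hprob := μ.2.1
  apply measurable_of_Ioi
  intro a
  have h1 : (fun y : E => ∫ z, R T y z ∂μ.1) ⁻¹' Ioi a =
      (range T ∩ ⋃ d ∈ {d ∈ D | a < M μ.1 d}, {y : E | T d ≤ y}) ∪
        ((range T)ᶜ ∩ {_y : E | a < 0}) := by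
    ext y
    by_cases hy : y ∈ range T
    · obtain ⟨g, rfl⟩ := hy
      constructor
      · intro h
        have h2 : a < M μ.1 (R T (T g)) := h
        rw [R_T T hinj] at h2
        obtain ⟨d, hdD, hdg, hdm⟩ := hD g (M μ.1 g - a) (by linarith)
        have h3 : M μ.1 g - (M μ.1 g - a) < M μ.1 d := hdm
        refine Or.inl ⟨⟨g, rfl⟩, mem_iUnion₂.mpr ⟨d, ⟨hdD, by linarith⟩, ?_⟩⟩
        exact (T_le_iff T hinj hsup).mpr hdg
      · rintro (⟨-, h⟩ | ⟨h, -⟩)
        · obtain ⟨d, ⟨-, hda⟩, hdg⟩ := mem_iUnion₂.mp h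
          have h4 : d ≤ g := (T_le_iff T hinj hsup).mp hdg
          show a < M μ.1 (R T (T g))
          rw [R_T T hinj]
          exact hda.trans_le (M_mono μ.1 h4)
        · exact absurd ⟨g, rfl⟩ h
    · constructor
      · intro h
        have h2 : a < M μ.1 (R T y) := h
        rw [R_of_not T hy, map_zero] at h2
        exact Or.inr ⟨hy, h2⟩
      · rintro (⟨h, -⟩ | ⟨-, h⟩)
        · exact absurd h hy
        · show a < M μ.1 (R T y)
          rw [R_of_not T hy, map_zero]
          exact h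
  rw [h1]
  refine MeasurableSet.union (hrange.inter ?_) (hrange.compl.inter (MeasurableSet.const _))
  refine MeasurableSet.biUnion (hDc.mono fun d hd => hd.1) fun d _ => IsClosed.measurableSet ?_
  exact isClosed_le continuous_const continuous_id

end sick

/-- **Positive answer to Q1**: on a sick compact space every `G_δ` point of `P(K)` is an analytic
measure. -/
theorem result (K : Type u) [TopologicalSpace K] [CompactSpace K] [T2Space K] [MeasurableSpace K]
    [BorelSpace K] (hK : IsSick.{u, w} K) (μ : PMeas K) (hμ : IsGδ ({μ} : Set (PMeas K))) :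
    TopologicalSpace.SeparableSpace (Lp ℝ 1 μ.1) ∧ AnalyticSet (range (canon μ.1)) := by
  classical
  have hprob := μ.2.1
  have hreg := μ.2.2
  obtain ⟨D, hDc, hD⟩ := exists_countable_lower μ hμ
  have hdense : DenseRange (canon μ.1) :=
    ContinuousMap.toLp_denseRange ℝ μ.1 ℝ ENNReal.one_ne_top
  have hDdense : Dense (canon μ.1 '' D) := by
    rw [Metric.dense_iff]
    intro x r hr
    obtain ⟨_, hy, ⟨g, rfl⟩⟩ := Metric.dense_iff.mp hdense x (r / 2) (by positivity)
    obtain ⟨d, hdD, hdg, hdm⟩ := hD g (r / 2) (by positivity)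
    refine ⟨canon μ.1 d, ?_, mem_image_of_mem _ hdD⟩
    rw [Metric.mem_ball] at hy ⊢
    have h1 : dist (canon μ.1 d) (canon μ.1 g) < r / 2 := by
      rw [dist_comm, dist_canon, abs_of_nonneg (sub_nonneg.mpr hdg), map_sub]
      have h2 : M μ.1 g - r / 2 < M μ.1 d := hdm
      linarith
    have h3 := dist_triangle (canon μ.1 d) (canon μ.1 g) x
    linarith
  have hsepL : TopologicalSpace.SeparableSpace (Lp ℝ 1 μ.1) :=
    ⟨⟨canon μ.1 '' D, hDc.image _, hDdense⟩⟩
  refine ⟨hsepL, ?_⟩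
  have hsc : SecondCountableTopology (Lp ℝ 1 μ.1) := UniformSpace.secondCountable_of_separable _
  let iL : MeasurableSpace (Lp ℝ 1 μ.1) := borel _
  have bL : BorelSpace (Lp ℝ 1 μ.1) := ⟨rfl⟩
  obtain ⟨E, i1, i2, i3, i4, i5, i6, i7, i8, x, T, hx, hinj, hsup, hinf, hr⟩ := hK
  let iE : MeasurableSpace E := borel E
  have bE : BorelSpace E := ⟨rfl⟩
  have hscE : SecondCountableTopology E := UniformSpace.secondCountable_of_separable _
  have hPol : PolishSpace E := inferInstance
  have hrange := measurableSet_range T x hx hr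
  have hm := measurable_m T hinj hsup hrange μ hDc hD
  -- the map `E → L₁(μ)`
  let j : E → Lp ℝ 1 μ.1 := fun y => canon μ.1 (R T y)
  have hball : ∀ (d : C(K, ℝ)) (q : ℝ), MeasurableSet (j ⁻¹' Metric.ball (canon μ.1 d) q) := by
    intro d q
    have h1 : j ⁻¹' Metric.ball (canon μ.1 d) q =
        (range T ∩ {y : E | (∫ z, R T |y - T d| z ∂μ.1) < q}) ∪
          ((range T)ᶜ ∩ {_y : E | dist (canon μ.1 0) (canon μ.1 d) < q}) := by
      ext y
      by_cases hy : y ∈ range T
      · obtain ⟨g, rfl⟩ := hy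
        have h2 : R T |T g - T d| = |g - d| := by
          rw [← map_sub, T_abs T hsup, R_T T hinj]
        have h3 : T g ∈ j ⁻¹' Metric.ball (canon μ.1 d) q ↔ (∫ z, R T |T g - T d| z ∂μ.1) < q := by
          rw [mem_preimage, Metric.mem_ball, h2]
          show dist (canon μ.1 (R T (T g))) (canon μ.1 d) < q ↔ _
          rw [R_T T hinj, dist_canon]
          rfl
        rw [h3]
        constructor
        · intro h
          exact Or.inl ⟨⟨g, rfl⟩, h⟩
        · rintro (⟨-, h⟩ | ⟨h, -⟩)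
          · exact h
          · exact absurd ⟨g, rfl⟩ h
      · have h3 : y ∈ j ⁻¹' Metric.ball (canon μ.1 d) q ↔
            dist (canon μ.1 0) (canon μ.1 d) < q := by
          rw [mem_preimage, Metric.mem_ball]
          show dist (canon μ.1 (R T y)) (canon μ.1 d) < q ↔ _
          rw [R_of_not T hy]
        rw [h3]
        constructor
        · intro h
          exact Or.inr ⟨hy, h⟩
        · rintro (⟨h, -⟩ | ⟨-, h⟩)
          · exact absurd h hy
          · exact h
    rw [h1]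
    refine MeasurableSet.union (hrange.inter ?_) (hrange.compl.inter (MeasurableSet.const _))
    have h4 : Measurable (fun y : E => |y - T d|) :=
      (continuous_latticeAbs.comp (continuous_id.sub continuous_const)).measurable
    exact measurableSet_lt (hm.comp h4) measurable_const
  have hj : Measurable j := by
    refine measurable_of_isOpen fun U hU => ?_
    have h1 : U = ⋃ a ∈ {a : C(K, ℝ) × ℚ | a.1 ∈ D ∧ Metric.ball (canon μ.1 a.1) a.2 ⊆ U},
        Metric.ball (canon μ.1 a.1) (a.2 : ℝ) := by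
      apply Subset.antisymm
      · intro z hz
        obtain ⟨r, hr, hrU⟩ := Metric.isOpen_iff.mp hU z hz
        obtain ⟨_, hd, ⟨d, hdD, rfl⟩⟩ := Metric.dense_iff.mp hDdense z (r / 4) (by positivity)
        obtain ⟨q, hq1, hq2⟩ := exists_rat_btwn (show r / 4 < r / 2 by linarith)
        rw [Metric.mem_ball] at hd
        refine mem_iUnion₂.mpr ⟨(d, q), ⟨hdD, ?_⟩, ?_⟩
        · refine Subset.trans ?_ hrU
          intro z' hz'
          have h2 : dist z' (canon μ.1 d) < q := hz'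
          rw [Metric.mem_ball]
          have h3 := dist_triangle z' (canon μ.1 d) z
          linarith
        · rw [Metric.mem_ball, dist_comm]
          show dist (canon μ.1 d) z < q
          linarith
      · exact iUnion₂_subset fun a ha => ha.2
    rw [h1, preimage_iUnion₂]
    refine MeasurableSet.biUnion ?_ fun a _ => hball a.1 a.2
    refine (hDc.prod (countable_univ (α := ℚ))).mono ?_
    intro a ha
    exact ⟨ha.1, mem_univ _⟩
  have himg : range (canon μ.1) = j '' range T := by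
    ext z
    constructor
    · rintro ⟨f, rfl⟩
      refine ⟨T f, ⟨f, rfl⟩, ?_⟩
      show canon μ.1 (R T (T f)) = canon μ.1 f
      rw [R_T T hinj]
    · rintro ⟨_, ⟨f, rfl⟩, rfl⟩
      exact ⟨R T (T f), rfl⟩
  rw [himg]
  exact hrange.analyticSet_image hj

end Pool.Agent.Results.MP_d104cf_an.GdeltaPointAnalytic
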